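import Mathlib
import Pool.Agent.H267Z.HochDefs
import Pool.Agent.H267Z.HochConv

set_option autoImplicit false

namespace Pool.Agent.Results.MP_067393_an.ABanach

open Pool.Agent.H267Z.Hoch

universe u

/-- There is a (commutative, unital) Banach algebra `A` over `ℂ` which is not amenable, although
for every Banach `A`-bimodule `X` the Hochschild chain complex exists and all its homology spaces
`H_k(A, X)`, `k ≥ 1`, vanish. -/
theorem result :
    ∃ (A : Type) (_ : NormedCommRing A) (_ : NormedAlgebra ℂ A) (_ : CompleteSpace A),
      ¬ Amenable.{0} A ∧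
      ∀ (X : Type u) [NormedAddCommGroup X] [NormedSpace ℂ X] [CompleteSpace X]
        (M : BanachBimod A X),
        Nonempty (HochschildComplex M) ∧
        ∀ (H : HochschildComplex M) (j : ℕ), HomologyVanishes H j :=
  ⟨Pool.Agent.Helper53.DbwModel.Alg, inferInstance, inferInstance, inferInstance, not_amenable',
    fun _ _ _ _ M => ⟨⟨(concrete M).toPlain⟩, fun H j => vanishes' H j⟩⟩

end Pool.Agent.Results.MP_067393_an.ABanach
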